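import Pool.Agent.Helper42.RZ.St.S11
import Pool.Agent.Helper42.RZ.St.S13

/-! # RZ-S14: strict negativity -/

set_option autoImplicit false

open MeasureTheory Set Metric Filter Topology
open scoped ENNReal

namespace Pool.Agent.Helper98.RZ

open Pool.Agent.Helper42.RZ

theorem PS_one (x : Fin 1 → E3) (k : ℝ → ℝ) : PS x k = 0 := by
  unfold PS
  apply Finset.sum_eq_zero
  intro p hp
  exact absurd (Subsingleton.elim _ _) (Finset.mem_offDiag.1 hp).2.2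

theorem integral_K {s ρ : ℝ} (h2 : s < 2) (hρ : 0 < ρ) :
    ∫ r in (0 : ℝ)..ρ, K s r * (1 - r / 4) ^ (0 : ℕ) * (r / 2) = ρ ^ (2 - s) / (2 * (2 - s)) := by
  have h1 : ∫ r in (0 : ℝ)..ρ, K s r * (1 - r / 4) ^ (0 : ℕ) * (r / 2) =
      ∫ r in (0 : ℝ)..ρ, (1 / 2 : ℝ) * r ^ (1 - s) := by
    refine intervalIntegral.integral_congr_ae (Filter.Eventually.of_forall fun r hr => ?_)
    rw [uIoc_of_le hρ.le] at hr
    have hr0 : 0 < r := hr.1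
    have e : r ^ (1 - s) = r ^ (-s) * r := by
      rw [show (1 - s) = -s + 1 by ring, Real.rpow_add hr0, Real.rpow_one]
    rw [K, pow_zero, mul_one, e]
    ring
  rw [h1, intervalIntegral.integral_const_mul, integral_rpow (Or.inl (by linarith)),
    show (1 - s + 1) = 2 - s by ring, Real.zero_rpow (by linarith)]
  have : (2 - s) ≠ 0 := by linarith
  field_simp
  ring

theorem negative {s : ℝ} (h0 : 0 < s) (h2 : s < 2) : ∃ a : ℝ, 0 < a ∧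
    ∀ᶠ N : ℕ in atTop, minE s N - Cc s * (N : ℝ) ^ 2 ≤ -a * (N : ℝ) ^ (1 + s / 2) := by
  obtain ⟨ε₀, hε₀, hup⟩ := upper_M h0 h2 (η := 1 / 2) (κ := 1 / 2) (by norm_num) (by norm_num)
    (by norm_num)
  obtain ⟨N₂, hN₂⟩ := extraction h0 h2 (δ := 1 / 8) (by norm_num) (by norm_num)
  obtain ⟨x, hx⟩ := exists_conf 1
  have h2s : 0 < 2 - s := by linarith
  have hA : 0 < ε₀ ^ (2 - s) / (4 * (2 - s)) := by positivity
  refine ⟨ε₀ ^ (2 - s) / (4 * (2 - s)) / (81 / 16), by positivity, ?_⟩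
  filter_upwards [eventually_ge_atTop (N₂ + 6)] with N hN
  set N₁ : ℕ := ⌈(8 / 7 : ℝ) * N⌉₊ with hN₁
  have hle : (8 / 7 : ℝ) * N ≤ N₁ := Nat.le_ceil _
  have hlt : (N₁ : ℝ) < (8 / 7 : ℝ) * N + 1 := Nat.ceil_lt_add_one (by positivity)
  have hN6 : (6 : ℝ) ≤ N := by exact_mod_cast (by omega : 6 ≤ N)
  have hNN₁ : (N : ℝ) ≤ N₁ := by linarith
  have hNN₁' : N ≤ N₁ := by exact_mod_cast hNN₁
  have hN₁pos : (0 : ℝ) < N₁ := by linarith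
  have hext := hN₂ N₁ (by omega) N (by linarith) (by linarith)
  have hc : ((1 + (1 / 8 : ℝ)) / (1 - 2 * (1 / 8))) ^ 4 = 81 / 16 := by norm_num
  rw [hc] at hext
  have hρ : 0 < ε₀ / Real.sqrt N₁ := div_pos hε₀ (Real.sqrt_pos.2 hN₁pos)
  have hb := hup 1 N₁ le_rfl (by omega) (ε₀ / Real.sqrt N₁) hρ
    (by
      rw [Nat.cast_one, div_one, div_mul_cancel₀ _ (Real.sqrt_pos.2 hN₁pos).ne'])
    x hx 0 (81 / 16 * (minE s N - Cc s * (N : ℝ) ^ 2)) hext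
  rw [PS_one, integral_K h2 hρ, mul_zero, zero_sub] at hb
  -- compute the power
  have hpow : (N₁ : ℝ) ^ 2 * (ε₀ / Real.sqrt N₁) ^ (2 - s) = ε₀ ^ (2 - s) * (N₁ : ℝ) ^ (1 + s / 2) := by
    rw [Real.div_rpow hε₀.le (Real.sqrt_nonneg _), Real.sqrt_eq_rpow, ← Real.rpow_mul hN₁pos.le,
      show (1 + s / 2) = 2 - 1 / 2 * (2 - s) by ring, Real.rpow_sub hN₁pos,
      show ((N₁ : ℝ) ^ (2 : ℝ)) = (N₁ : ℝ) ^ 2 from Real.rpow_two _]
    ring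
  have hmono : (N : ℝ) ^ (1 + s / 2) ≤ (N₁ : ℝ) ^ (1 + s / 2) :=
    Real.rpow_le_rpow (by positivity) hNN₁ (by linarith)
  have hrhs : -((N₁ : ℝ) ^ 2 * ((1 - 1 / 2) * ((ε₀ / Real.sqrt N₁) ^ (2 - s) / (2 * (2 - s))))) =
      -(ε₀ ^ (2 - s) / (4 * (2 - s)) * (N₁ : ℝ) ^ (1 + s / 2)) := by
    have : (N₁ : ℝ) ^ 2 * ((1 - 1 / 2) * ((ε₀ / Real.sqrt N₁) ^ (2 - s) / (2 * (2 - s)))) =
      ((N₁ : ℝ) ^ 2 * (ε₀ / Real.sqrt N₁) ^ (2 - s)) / (4 * (2 - s)) := by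
      field_simp
      ring
    rw [this, hpow]
    ring
  rw [hrhs] at hb
  have h3 : ε₀ ^ (2 - s) / (4 * (2 - s)) * (N : ℝ) ^ (1 + s / 2) ≤
      ε₀ ^ (2 - s) / (4 * (2 - s)) * (N₁ : ℝ) ^ (1 + s / 2) :=
    mul_le_mul_of_nonneg_left hmono hA.le
  have h4 : 81 / 16 * (minE s N - Cc s * (N : ℝ) ^ 2) ≤
      -(ε₀ ^ (2 - s) / (4 * (2 - s)) * (N : ℝ) ^ (1 + s / 2)) := by linarith
  have h5 : -(ε₀ ^ (2 - s) / (4 * (2 - s)) / (81 / 16)) * (N : ℝ) ^ (1 + s / 2) =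
      (-(ε₀ ^ (2 - s) / (4 * (2 - s)) * (N : ℝ) ^ (1 + s / 2))) / (81 / 16) := by ring
  rw [h5, le_div_iff₀ (by norm_num)]
  linarith

end Pool.Agent.Helper98.RZ
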